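import Pool.Agent.Q61.DP.Stm

set_option autoImplicit false

/-! Job DP-38: `S_B3` from `S_FRAME`, `S_SIG`, `S_B1`, `S_B2`. -/

namespace Pool.Agent.Q279.DP

open Topology Filter Set Metric
open Pool.Agent.Q61.DP

theorem norm_Bl {u : ℂ → ℝ} {a b : ℂ → ℂ} (h : Dev u a b) (z : ℂ) : ‖Bl a b z‖ = 1 := by
  have hpos : 0 < ‖a z‖ ^ 2 + ‖b z‖ ^ 2 := by
    rw [h.nm z]
    positivity
  have key : (b z * (starRingEnd ℂ) (a z)).re ^ 2 + (b z * (starRingEnd ℂ) (a z)).im ^ 2 =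
      ‖b z‖ ^ 2 * ‖a z‖ ^ 2 := by
    have h1 : ‖b z * (starRingEnd ℂ) (a z)‖ ^ 2 = ‖b z‖ ^ 2 * ‖a z‖ ^ 2 := by
      rw [norm_mul, Complex.norm_conj, mul_pow]
    rw [← h1, ← Complex.normSq_eq_norm_sq, Complex.normSq_apply]
    ring
  unfold Bl
  rw [norm_smul, EuclideanSpace.norm_eq, Fin.sum_univ_three]
  simp only [Real.norm_eq_abs, sq_abs, norm_inv]
  have h2 : (!₂[2 * (b z * (starRingEnd ℂ) (a z)).re, 2 * (b z * (starRingEnd ℂ) (a z)).im,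
      ‖a z‖ ^ 2 - ‖b z‖ ^ 2] : E3) 0 ^ 2 + (!₂[2 * (b z * (starRingEnd ℂ) (a z)).re,
      2 * (b z * (starRingEnd ℂ) (a z)).im, ‖a z‖ ^ 2 - ‖b z‖ ^ 2] : E3) 1 ^ 2 +
      (!₂[2 * (b z * (starRingEnd ℂ) (a z)).re, 2 * (b z * (starRingEnd ℂ) (a z)).im,
      ‖a z‖ ^ 2 - ‖b z‖ ^ 2] : E3) 2 ^ 2 = (‖a z‖ ^ 2 + ‖b z‖ ^ 2) ^ 2 := by
    show (2 * (b z * (starRingEnd ℂ) (a z)).re) ^ 2 + (2 * (b z * (starRingEnd ℂ) (a z)).im) ^ 2 +
      (‖a z‖ ^ 2 - ‖b z‖ ^ 2) ^ 2 = _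
    linear_combination 4 * key
  rw [h2, Real.sqrt_sq hpos.le, abs_of_pos hpos, inv_mul_cancel₀ hpos.ne']

theorem b3 (hF : S_FRAME) (hS : S_SIG) (hB1 : S_B1) (hB2 : S_B2) : S_B3 := by
  intro u a b hd hle hrad n r hn hr ⟨g, hg⟩
  obtain ⟨e1, e2, a1, b1, hd1, hfr⟩ := hF u a b hd n hn
  obtain ⟨hsc, hsw, -, -, hlast⟩ := hS e1 e2 n hfr.1
  obtain ⟨heq, -, -⟩ := hlast u a1 b1 (Bl a b) hd1 hfr (norm_Bl hd)
  have hpi := Real.pi_pos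
  set r1 : ℝ := min r (3 * Real.pi / 4) with hr1
  have hr1a : Real.pi / 2 < r1 := lt_min hr (by linarith)
  have hr1b : r1 ≤ 3 * Real.pi / 4 := min_le_right _ _
  have hr1c : r1 ≤ r := min_le_left _ _
  set T : ℝ := Real.tan (r1 / 2) with hT
  have hTa : Real.arctan T = r1 / 2 := Real.arctan_tan (by linarith) (by linarith)
  have hT1 : 1 < T := by
    rw [hT, ← Real.tan_pi_div_four]
    exact Real.tan_lt_tan_of_nonneg_of_lt_pi_div_two (by positivity) (by linarith) (by linarith)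
  have hmaps : MapsTo (sg e1 e2 n) (ball (0 : ℂ) T) (capA n r) := by
    intro w hw
    refine ⟨(hsw w).1, ?_⟩
    rw [(hsw w).2.2.1]
    have h1 : ‖w‖ < T := by simpa using hw
    have h2 := Real.arctan_strictMono h1
    rw [hTa] at h2
    linarith
  have hcont : ContinuousOn (fun w => g (sg e1 e2 n w)) (ball 0 T) :=
    hg.1.comp hsc.continuousOn hmaps
  have hbw : ∀ w ∈ ball (0 : ℂ) T, b1 (g (sg e1 e2 n w)) = w * a1 (g (sg e1 e2 n w)) := fun w hw =>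
    (heq _ _).1 (hg.2 _ (hmaps hw))
  by_cases hc : ∀ ε > 0, ∃ z, z ∉ (fun w => g (sg e1 e2 n w)) '' ball 0 ((1 + T) / 2) ∧
      ‖b1 z‖ < ε * ‖a1 z‖
  · obtain ⟨x, y, hxy⟩ := hB2 u a1 b1 hd1 T ((1 + T) / 2) _ (by linarith) (by linarith) hcont hbw hc
    exact absurd (hle x y) (not_le.2 hxy)
  · push Not at hc
    obtain ⟨ε, hε, hc⟩ := hc
    exact hrad (hB1 u a1 b1 hd1 T ((1 + T) / 2) ε _ (by linarith) (by linarith) hε hcont hbw hc)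

end Pool.Agent.Q279.DP
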