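import Pool.Agent.Q61.DP.Stm

set_option autoImplicit false

/-! Job DP-40: `S_LIFT`. -/

namespace Pool.Agent.Q279.DP

open Topology Filter Set Metric
open Pool.Agent.Q61.DP

theorem lift : S_LIFT := by
  intro θ hθ hn
  have h0 : ∀ z, θ z ≠ 0 := by
    intro z hz
    have := hn z
    rw [hz, norm_zero] at this
    norm_num at this
  obtain ⟨f, ⟨-, hf⟩, -⟩ := Complex.isCoveringMapOn_exp.existsUnique_continuousMap_lifts
    (⟨θ, hθ⟩ : C(ℂ, ℂ)) (a₀ := 0) (e₀ := Complex.log (θ 0)) (Complex.exp_log (h0 0)) (fun z => h0 z)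
  have hfc : Continuous f := f.continuous
  have he : ∀ z, Complex.exp (f z) = θ z := fun z => congrFun hf z
  refine ⟨fun z => (f z).im / (2 * Real.pi), (Complex.continuous_im.comp hfc).div_const _, fun z => ?_⟩
  have h1 : (f z).re = 0 := by
    have h2 : ‖Complex.exp (f z)‖ = 1 := by rw [he z, hn z]
    rw [Complex.norm_exp] at h2
    exact Real.exp_eq_one_iff _ |>.1 h2
  rw [← he z]
  congr 1
  have hpi : (Real.pi : ℂ) ≠ 0 := by exact_mod_cast Real.pi_ne_zero
  have h3 : (2 * (Real.pi : ℂ) * (((f z).im / (2 * Real.pi) : ℝ) : ℂ) * Complex.I) =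
      ((f z).im : ℂ) * Complex.I := by
    push_cast
    field_simp
  rw [h3]
  apply Complex.ext
  · simp [h1]
  · simp

end Pool.Agent.Q279.DP
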