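import Pool.Agent.Q61.DP.Stm

set_option autoImplicit false

/-! Job DP-41: `S_SEP` from `S_LIFT`. -/

namespace Pool.Agent.Q279.DP

open Topology Filter Set Metric
open Pool.Agent.Q61.DP

theorem int_of_exp {x y : ℝ}
    (h : Complex.exp (2 * Real.pi * (x : ℂ) * Complex.I) = Complex.exp (2 * Real.pi * (y : ℂ) * Complex.I)) :
    ∃ n : ℤ, x = y + n := by
  obtain ⟨n, hn⟩ := Complex.exp_eq_exp_iff_exists_int.1 h
  refine ⟨n, ?_⟩
  have h2 : (2 * Real.pi * Complex.I : ℂ) ≠ 0 := Complex.two_pi_I_ne_zero
  have h3 : (2 * Real.pi * Complex.I : ℂ) * x = (2 * Real.pi * Complex.I) * (y + n) := by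
    linear_combination hn
  have h4 := mul_left_cancel₀ h2 h3
  exact_mod_cast h4

theorem sep (hL : S_LIFT) : S_SEP := by
  classical
  intro N τ hNo hNp hτ hcl
  rcases N.eq_empty_or_nonempty with hN | ⟨p, hp⟩
  · subst hN
    refine ⟨univ, ∅, isOpen_univ, isOpen_empty, disjoint_empty _, by ext; simp, by simp, by simp⟩
  obtain ⟨κ, hκ0, hκ1, hκ⟩ := exists_continuous_zero_one_of_isClosed (hNo.isClosed_compl) hcl
    (by rw [Set.disjoint_left]; rintro z hz ⟨h1, _⟩; exact hz h1)
  obtain ⟨m, hm⟩ : ∃ m : ℂ → ℝ, m = fun z => max (κ z - 1/2) 0 := ⟨_, rfl⟩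
  have hmc : Continuous m := by
    rw [hm]
    exact (κ.continuous.sub continuous_const).max continuous_const
  have hm0 : ∀ z, 0 ≤ m z := fun z => by rw [hm]; exact le_max_right _ _
  have hτ0 : ∀ z ∈ N, τ z = 0 → κ z = 1 := fun z hz h => hκ1 ⟨hz, h⟩
  have hden : ∀ z ∈ N, 0 < |τ z| + m z := by
    intro z hz
    by_cases h : τ z = 0
    · have h1 := hτ0 z hz h
      have h2 : m z = 1 / 2 := by
        rw [hm]
        show max (κ z - 1 / 2) 0 = 1 / 2
        rw [h1]
        norm_num
      rw [h, h2]
      norm_num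
    · have := abs_pos.2 h
      linarith [hm0 z]
  obtain ⟨ψ, hψ⟩ : ∃ ψ : ℂ → ℝ, ψ = fun z => 1/2 + τ z / (2 * (|τ z| + m z)) := ⟨_, rfl⟩
  have hψc : ContinuousOn ψ N := by
    rw [hψ]
    refine continuousOn_const.add (hτ.div (continuousOn_const.mul ((continuous_abs.comp_continuousOn hτ).add
      hmc.continuousOn)) fun z hz => ?_)
    have := hden z hz
    positivity
  obtain ⟨θ, hθ⟩ : ∃ θ : ℂ → ℂ, θ = fun z => if z ∈ N then
    Complex.exp (2 * Real.pi * (ψ z : ℂ) * Complex.I) else 1 := ⟨_, rfl⟩
  have hone : ∀ z, κ z < 1/2 → θ z = 1 := by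
    intro z hz
    rw [hθ]
    show (if z ∈ N then _ else _) = _
    split_ifs with h
    · have hmz : m z = 0 := by
        rw [hm]
        exact max_eq_right (by linarith)
      have ht : τ z ≠ 0 := by
        intro h0
        have := hτ0 z h h0
        linarith
      rcases lt_or_gt_of_ne ht with h1 | h1
      · have : ψ z = 0 := by
          rw [hψ]
          show 1/2 + τ z / (2 * (|τ z| + m z)) = 0
          have h5 : τ z / (2 * (|τ z| + m z)) = -(1 / 2) := by
            rw [hmz, abs_of_neg h1, add_zero, div_eq_iff (by intro h; apply ht; linarith)]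
            ring
          rw [h5]
          norm_num
        rw [this]
        simp
      · have : ψ z = 1 := by
          rw [hψ]
          show 1/2 + τ z / (2 * (|τ z| + m z)) = 1
          have h5 : τ z / (2 * (|τ z| + m z)) = 1 / 2 := by
            rw [hmz, abs_of_pos h1, add_zero, div_eq_iff (by intro h; apply ht; linarith)]
            ring
          rw [h5]
          norm_num
        rw [this]
        simp [Complex.exp_two_pi_mul_I]
    · rfl
  have hθc : Continuous θ := by
    rw [continuous_iff_continuousAt]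
    intro z
    by_cases hz : z ∈ N
    · have h1 : ContinuousAt (fun z => Complex.exp (2 * Real.pi * (ψ z : ℂ) * Complex.I)) z := by
        have h2 : ContinuousAt ψ z := hψc.continuousAt (hNo.mem_nhds hz)
        have h3 : ContinuousAt (fun z => (ψ z : ℂ)) z := Complex.continuous_ofReal.continuousAt.comp h2
        exact ((continuousAt_const.mul h3).mul continuousAt_const).cexp
      refine h1.congr ?_
      filter_upwards [hNo.mem_nhds hz] with w hw
      rw [hθ]
      simp [hw]
    · have h1 : κ z = 0 := hκ0 hz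
      have h2 : ∀ᶠ w in 𝓝 z, κ w < 1 / 2 :=
        κ.continuous.continuousAt.eventually_lt continuousAt_const (by rw [h1]; norm_num)
      refine (continuousAt_const (y := (1 : ℂ))).congr ?_
      filter_upwards [h2] with w hw
      exact (hone w hw).symm
  have hθn : ∀ z, ‖θ z‖ = 1 := by
    intro z
    rw [hθ]
    show ‖if z ∈ N then _ else _‖ = _
    split_ifs
    · have : (2 * Real.pi * (ψ z : ℂ) * Complex.I) = ((2 * Real.pi * ψ z : ℝ) : ℂ) * Complex.I := by
        push_cast; ring
      rw [this, Complex.norm_exp_ofReal_mul_I]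
    · simp
  obtain ⟨Θ, hΘ, hΘe⟩ := hL θ hθc hθn
  have hN1 : ∀ z ∈ N, ∃ n : ℤ, Θ z = ψ z + n := by
    intro z hz
    refine int_of_exp ?_
    rw [← hΘe z, hθ]
    simp [hz]
  have hout : ∀ z, z ∉ N → ∃ n : ℤ, Θ z = n := by
    intro z hz
    have h1 : θ z = 1 := by
      rw [hθ]
      simp [hz]
    obtain ⟨n, hn⟩ := int_of_exp (x := Θ z) (y := 0) (by rw [← hΘe z, h1]; simp)
    exact ⟨n, by rw [hn, zero_add]⟩
  obtain ⟨k, hk⟩ := hN1 p hp
  have hconst : ∀ z ∈ N, Θ z = ψ z + k := by
    have hc : ContinuousOn (fun z => Θ z - ψ z) N := hΘ.continuousOn.sub hψc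
    -- no jumps
    have key : ∀ x ∈ N, ∀ y ∈ N, ∀ i j : ℤ, Θ x = ψ x + i → Θ y = ψ y + j → ¬ i < j := by
      intro x hx y hy i j hi hj hij
      have h1 := hNp.intermediate_value hx hy hc
      have h2 : (i : ℝ) + 1 / 2 ∈ Icc (Θ x - ψ x) (Θ y - ψ y) := by
        rw [hi, hj]
        have : (i : ℝ) + 1 ≤ j := by exact_mod_cast hij
        constructor <;> linarith
      obtain ⟨w, hw, hw2⟩ := h1 h2
      obtain ⟨l, hl⟩ := hN1 w hw
      have h3 : (l : ℝ) = i + 1 / 2 := by
        have : Θ w - ψ w = (i : ℝ) + 1 / 2 := hw2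
        linarith
      have h4 : (2 * l : ℝ) = 2 * i + 1 := by linarith
      have h5 : 2 * l = 2 * i + 1 := by exact_mod_cast h4
      omega
    intro z hz
    obtain ⟨n, hn⟩ := hN1 z hz
    have h1 := key z hz p hp n k hn hk
    have h2 := key p hp z hz k n hk hn
    have h3 : n = k := by omega
    rw [hn, h3]
  have hpos : ∀ z ∈ N, (0 < τ z ↔ 1 / 2 < ψ z) ∧ (τ z < 0 ↔ ψ z < 1 / 2) := by
    intro z hz
    have hd : 0 < 2 * (|τ z| + m z) := by
      have := hden z hz
      positivity
    have e : ψ z = 1/2 + τ z / (2 * (|τ z| + m z)) := by rw [hψ]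
    rw [e]
    constructor
    · constructor
      · intro h
        have := div_pos h hd
        linarith
      · intro h
        by_contra hcon
        have := div_nonpos_of_nonpos_of_nonneg (not_lt.1 hcon) hd.le
        linarith
    · constructor
      · intro h
        have := div_neg_of_neg_of_pos h hd
        linarith
      · intro h
        by_contra hcon
        have := div_nonneg (not_lt.1 hcon) hd.le
        linarith
  refine ⟨{z | (k : ℝ) + 1 / 2 < Θ z}, {z | Θ z < (k : ℝ) + 1 / 2}, isOpen_lt continuous_const hΘ,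
    isOpen_lt hΘ continuous_const, ?_, ?_, ?_, ?_⟩
  · rw [Set.disjoint_left]
    intro z h1 h2
    exact lt_asymm (show (k : ℝ) + 1 / 2 < Θ z from h1) h2
  · ext z
    simp only [mem_union, mem_ofPred_eq, mem_compl_iff]
    constructor
    · rintro h ⟨hz, h0⟩
      have h1 := hpos z hz
      have h2 := hconst z hz
      have h3 : ψ z = 1 / 2 := by
        by_contra hne
        rcases lt_or_gt_of_ne hne with h4 | h4
        · have := h1.2.2 h4
          linarith
        · have := h1.1.2 h4
          linarith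
      rcases h with h | h <;> linarith
    · intro h
      by_contra hcon
      push Not at hcon
      have h1 : Θ z = k + 1 / 2 := le_antisymm hcon.1 hcon.2
      by_cases hz : z ∈ N
      · refine h ⟨hz, ?_⟩
        have h2 := hconst z hz
        have h3 : ψ z = 1 / 2 := by linarith
        have h4 := hpos z hz
        by_contra hne
        rcases lt_or_gt_of_ne hne with h5 | h5
        · have := h4.2.1 h5
          linarith
        · have := h4.1.1 h5
          linarith
      · obtain ⟨n, hn⟩ := hout z hz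
        have h4 : (2 * n : ℝ) = 2 * k + 1 := by linarith
        have h5 : 2 * n = 2 * k + 1 := by exact_mod_cast h4
        omega
  · intro z hz h
    have h1 := (hpos z hz).1.1 h
    have h2 := hconst z hz
    show (k : ℝ) + 1 / 2 < Θ z
    linarith
  · intro z hz h
    have h1 := (hpos z hz).2.1 h
    have h2 := hconst z hz
    show Θ z < (k : ℝ) + 1 / 2
    linarith

end Pool.Agent.Q279.DP
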